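import Mathlib
import Pool.Agent.N546.PN.Fin
import Pool.Agent.N546.PW.FinW

/-!
# Weak approximation for 100% of the diagonal conic bundles over `ℙⁿ`, `n ≥ 2`, and of their fibre
# products (helper546)

Let `n ≥ 2`, `r ≥ 0`, `d_i ≥ 1` for `i < r`, and let `F_{i,l}`, `i < r`, `l < 3`, be forms of degree `d_i`
in `x_0, …, x_n` with integral coefficients. They define

  `X_F : F_{i,0}(x) z_{i,0}² + F_{i,1}(x) z_{i,1}² = F_{i,2}(x) z_{i,2}²`, `i < r`, in `ℙⁿ × (ℙ²)^r`,

a fibre product over `ℙⁿ` of diagonal conic bundles, for `r = 1` a diagonal hypersurface of bidegree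
`(d, 2)`. If `X_F` is smooth of dimension `n + r`, it is geometrically rationally connected.

We order the families `F` by the maximum `H` of the absolute values of their coefficients. Almost all
`X_F` are smooth, a positive proportion has points over the real numbers and over all `ℚ_p`, and for
every `m ≥ 1`, 100% of the smooth `X_F` with points everywhere locally satisfy weak approximation to
precision `1 / m` at the real place and at all primes up to `m`: every family of local points of `X_F`,
in particular of points on the degenerate fibres, is approximated by a rational point.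

Proof. If the gradients of the forms vanishing at a point of `ℙⁿ` are linearly independent at all points,
every local point is near to stable positions: base points such that over all base points near them, for
all families near `F`, there are local points near the given one. The families for which
this is not so satisfy an algebraic equation, which is rarely small in the real and the `p`-adic metrics.
So by compactness there are finitely many positions, for all but `ε` of the families. For all positions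
at the real place and the primes up to `m`, one position at the primes between `m` and a large `P`, and
every residue class of families we choose a line through an integral point near the position; a line
for which the restriction of one of the forms vanishes identically modulo a prime `p > P` is met by a
proportion `O(1 / P)` of the families of the class. For almost all restrictions to the line the theorem
for `ℙ¹` (helper718) gives a rational base point over which there are rational points and which is near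
the position, and weak approximation for conics gives the rational point of `X_F`.
-/

set_option autoImplicit false

namespace Pool.Agent.Results.MP_83e36b_nt.ConicBundlesOverPn

open Filter Topology MvPolynomial

/-- The families of forms `F (i, l)` of degree `d i` in `n + 1` variables whose coefficients are integers
of absolute value at most `H`. -/
def Families (n : ℕ) {r : ℕ} (d : Fin r → ℕ) (H : ℕ) :
    Set (Fin r × Fin 3 → MvPolynomial (Fin (n + 1)) ℤ) :=
  {F | ∀ k, (F k).IsHomogeneous (d k.1) ∧ ∀ a, |(F k).coeff a| ≤ (H : ℤ)}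

/-- `(x, z)` are homogeneous coordinates of a point of `X_F` over the field `K`. -/
def IsPoint {n r : ℕ} (F : Fin r × Fin 3 → MvPolynomial (Fin (n + 1)) ℤ) {K : Type} [Field K]
    (x : Fin (n + 1) → K) (z : Fin r → Fin 3 → K) : Prop :=
  x ≠ 0 ∧ ∀ i, z i ≠ 0 ∧
    aeval x (F (i, 0)) * z i 0 ^ 2 + aeval x (F (i, 1)) * z i 1 ^ 2 = aeval x (F (i, 2)) * z i 2 ^ 2

/-- `X_F` is a smooth complete intersection: at every point over a field of characteristic zero the
differentials of the `r` equations are linearly independent. The partial derivative of the `i`-th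
equation with respect to `z i l` is, up to the factor `2` or `-2`, the product `F (i, l) (x) z i l`. -/
def Smooth {n r : ℕ} (F : Fin r × Fin 3 → MvPolynomial (Fin (n + 1)) ℤ) : Prop :=
  ∀ (K : Type) [Field K] [CharZero K] (x : Fin (n + 1) → K) (z : Fin r → Fin 3 → K), IsPoint F x z →
    ∀ t : Fin r → K, t ≠ 0 →
      (∃ a, ∑ i, t i * (aeval x (pderiv a (F (i, 0))) * z i 0 ^ 2 +
        aeval x (pderiv a (F (i, 1))) * z i 1 ^ 2 - aeval x (pderiv a (F (i, 2))) * z i 2 ^ 2) ≠ 0) ∨
      ∃ i l, t i * (aeval x (F (i, l)) * z i l) ≠ 0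

/-- `X_F` has a point over the field `K`. -/
def HasPoint {n r : ℕ} (F : Fin r × Fin 3 → MvPolynomial (Fin (n + 1)) ℤ) (K : Type) [Field K] :
    Prop :=
  ∃ (x : Fin (n + 1) → K) (z : Fin r → Fin 3 → K), IsPoint F x z

/-- `X_F` has points over the real numbers and over all the `p`-adic fields. -/
def LocallySoluble {n r : ℕ} (F : Fin r × Fin 3 → MvPolynomial (Fin (n + 1)) ℤ) : Prop :=
  HasPoint F ℝ ∧ ∀ (p : ℕ) [Fact p.Prime], HasPoint F ℚ_[p]

/-- The points of the projective space with the homogeneous coordinates `a` and `b` have distance at most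
`δ`. -/
def Near {K : Type} [NormedField K] {s : ℕ} (δ : ℝ) (a b : Fin s → K) : Prop :=
  ∃ l : K, l ≠ 0 ∧ ∀ j, ‖a j - l * b j‖ ≤ ‖a‖ * δ

/-- Weak approximation to precision `1 / m` at the real place and at the primes up to `m`: for all points
`(X p, Z p)` of `X_F` over the `p`-adic fields and `(XR, ZR)` over the real numbers there is a
rational point `(x, z)` near them. -/
def WeakApproximation {n r : ℕ} (m : ℕ) (F : Fin r × Fin 3 → MvPolynomial (Fin (n + 1)) ℤ) : Prop :=
  ∀ (X : (p : Nat.Primes) → Fin (n + 1) → ℚ_[(p : ℕ)])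
    (Z : (p : Nat.Primes) → Fin r → Fin 3 → ℚ_[(p : ℕ)])
    (XR : Fin (n + 1) → ℝ) (ZR : Fin r → Fin 3 → ℝ),
    (∀ p, IsPoint F (X p) (Z p)) → IsPoint F XR ZR →
    ∃ (x : Fin (n + 1) → ℚ) (z : Fin r → Fin 3 → ℚ), IsPoint F x z ∧
      (∀ p : Nat.Primes, (p : ℕ) ≤ m →
        Near (1 / (m : ℝ)) (X p) (fun j => (x j : ℚ_[(p : ℕ)])) ∧
        ∀ i, Near (1 / (m : ℝ)) (Z p i) (fun j => (z i j : ℚ_[(p : ℕ)]))) ∧
      Near (1 / (m : ℝ)) XR (fun j => (x j : ℝ)) ∧
        ∀ i, Near (1 / (m : ℝ)) (ZR i) (fun j => (z i j : ℝ))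

open Pool.Agent.N546.PN Pool.Agent.N665.PN in
theorem isPoint_iff {n r : ℕ} {e : Fin r × Fin 3 → ℕ} {F : Fin r × Fin 3 → MvPolynomial (Fin (n + 1)) ℤ}
    (hF : ∀ k, (F k).IsHomogeneous (e k + 1)) {K : Type} [Field K] (x : Fin (n + 1) → K)
    (z : Fin r → Fin 3 → K) :
    IsPoint F x z ↔ IsP (ic (fun k => (cof (F k) : Mon n (e k + 1) → ℤ)) K) x z := by
  unfold IsPoint IsP
  refine and_congr Iff.rfl (forall_congr' fun i => and_congr Iff.rfl ?_)
  rw [conv_val n _ _ (hF (i, 0)) K x, conv_val n _ _ (hF (i, 1)) K x,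
    conv_val n _ _ (hF (i, 2)) K x]
  exact Iff.rfl

open Pool.Agent.N546.PN Pool.Agent.N665.PN in
theorem smooth_iff {n r : ℕ} {e : Fin r × Fin 3 → ℕ} {F : Fin r × Fin 3 → MvPolynomial (Fin (n + 1)) ℤ}
    (hF : ∀ k, (F k).IsHomogeneous (e k + 1)) :
    Smooth F ↔ ∀ (K : Type) [Field K] [CharZero K],
      SmK (ic (fun k => (cof (F k) : Mon n (e k + 1) → ℤ)) K) := by
  unfold Smooth SmK
  refine forall_congr' fun K => forall_congr' fun _ => forall_congr' fun _ => forall_congr' fun x =>
    forall_congr' fun z => ?_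
  rw [isPoint_iff hF]
  refine forall_congr' fun _ => forall_congr' fun t => forall_congr' fun _ => ?_
  simp only [fun (k : Fin r × Fin 3) (a : Fin (n + 1)) => conv_dval n _ _ (hF k) K x a,
    fun (k : Fin r × Fin 3) => conv_val n _ _ (hF k) K x]
  exact Iff.rfl

open Pool.Agent.N546.PN Pool.Agent.N665.PN in
theorem hasPoint_iff {n r : ℕ} {e : Fin r × Fin 3 → ℕ} {F : Fin r × Fin 3 → MvPolynomial (Fin (n + 1)) ℤ}
    (hF : ∀ k, (F k).IsHomogeneous (e k + 1)) (K : Type) [Field K] :
    HasPoint F K ↔ ∃ x z, IsP (ic (fun k => (cof (F k) : Mon n (e k + 1) → ℤ)) K) x z := by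
  unfold HasPoint
  exact exists_congr fun x => exists_congr fun z => isPoint_iff hF x z

open Pool.Agent.N546.PN Pool.Agent.N665.PN in
theorem wa_iff {n r : ℕ} {e : Fin r × Fin 3 → ℕ} {F : Fin r × Fin 3 → MvPolynomial (Fin (n + 1)) ℤ}
    (hF : ∀ k, (F k).IsHomogeneous (e k + 1)) (m : ℕ) :
    WeakApproximation m F ↔ WAm m (fun k => (cof (F k) : Mon n (e k + 1) → ℤ)) := by
  have key : ∀ {K : Type} [Field K] (x : Fin (n + 1) → K) (z : Fin r → Fin 3 → K),
      IsPoint F x z ↔ (x ≠ 0 ∧ On (fun k => val (ic (fun k => (cof (F k) : Mon n (e k + 1) → ℤ)) K k) x)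
        z) := by
    intro K _ x z
    rw [isPoint_iff hF x z]
    exact Iff.rfl
  unfold WeakApproximation WAm
  constructor
  · intro h X Z XR ZR h1 h2 h3
    obtain ⟨x, z, g1, g2⟩ := h X Z XR ZR (fun p => (key _ _).2 (h1 p)) ((key _ _).2 ⟨h2, h3⟩)
    exact ⟨x, z, ((key _ _).1 g1).1, ((key _ _).1 g1).2, g2⟩
  · intro h X Z XR ZR h1 h2
    obtain ⟨x, z, g1, g1', g2⟩ := h X Z XR ZR (fun p => (key _ _).1 (h1 p)) ((key _ _).1 h2).1
      ((key _ _).1 h2).2
    exact ⟨x, z, (key _ _).2 ⟨g1, g1'⟩, g2⟩

/-- **Weak approximation for 100% of the diagonal conic bundles over `ℙⁿ` and their fibre products.** -/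
theorem result (n : ℕ) (hn : 2 ≤ n) {r : ℕ} (d : Fin r → ℕ) (hd : ∀ i, 1 ≤ d i) :
    (∃ c₀ : ℝ, 0 < c₀ ∧ ∀ᶠ H : ℕ in atTop, c₀ * ((Families n d H).ncard : ℝ) ≤
      (({F | F ∈ Families n d H ∧ Smooth F ∧ LocallySoluble F} : Set _).ncard : ℝ)) ∧
    ∀ m : ℕ, 1 ≤ m → Tendsto (fun H : ℕ =>
      (({F | F ∈ Families n d H ∧ Smooth F ∧ LocallySoluble F ∧ WeakApproximation m F} :
        Set _).ncard : ℝ) /
      (({F | F ∈ Families n d H ∧ Smooth F ∧ LocallySoluble F} : Set _).ncard : ℝ))
      atTop (𝓝 1) := by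
  classical
  obtain ⟨d', rfl⟩ : ∃ d' : Fin r → ℕ, d = fun i => d' i + 1 :=
    ⟨fun i => d i - 1, funext fun i => (Nat.sub_add_cancel (hd i)).symm⟩
  obtain ⟨⟨c₀, hc₀, h1⟩, _⟩ := Pool.Agent.N546.PN.fin_count (n := n) (r := r)
    (e := fun k => d' k.1) (fun _ _ _ => rfl) hn
  have e1 : ∀ H : ℕ, ({F | F ∈ Families n (fun i => d' i + 1) H ∧ Smooth F ∧ LocallySoluble F} :
      Set (Fin r × Fin 3 → MvPolynomial (Fin (n + 1)) ℤ)).ncard =
      ((Pool.Agent.N546.PN.bx n (fun k : Fin r × Fin 3 => d' k.1) H).filter (fun c =>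
        (∀ (K : Type) [Field K] [CharZero K], Pool.Agent.N546.PN.SmK (Pool.Agent.N546.PN.ic c K)) ∧
        ((∃ x z, Pool.Agent.N546.PN.IsP (Pool.Agent.N546.PN.ic c ℝ) x z) ∧
          ∀ (p : ℕ) [Fact p.Prime], ∃ x z,
            Pool.Agent.N546.PN.IsP (Pool.Agent.N546.PN.ic c ℚ_[p]) x z))).card := by
    intro H
    refine Eq.trans ?_ ((Pool.Agent.N665.PN.conv_card n (Fin r × Fin 3) (fun k => d' k.1) H
      (fun c => (∀ (K : Type) [Field K] [CharZero K],
        Pool.Agent.N546.PN.SmK (Pool.Agent.N546.PN.ic c K)) ∧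
        ((∃ x z, Pool.Agent.N546.PN.IsP (Pool.Agent.N546.PN.ic c ℝ) x z) ∧
          ∀ (p : ℕ) [Fact p.Prime], ∃ x z,
            Pool.Agent.N546.PN.IsP (Pool.Agent.N546.PN.ic c ℚ_[p]) x z))).trans (by congr!))
    congr 1
    ext F
    simp only [Set.mem_ofPred_eq, Families]
    refine and_congr_right fun hF => ?_
    have hF' : ∀ k, (F k).IsHomogeneous (d' k.1 + 1) := fun k => (hF k).1
    rw [smooth_iff (e := fun k => d' k.1) hF']
    refine and_congr Iff.rfl ?_
    unfold LocallySoluble
    rw [hasPoint_iff (e := fun k => d' k.1) hF' ℝ]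
    refine and_congr Iff.rfl (forall_congr' fun p => forall_congr' fun _ => ?_)
    exact hasPoint_iff (e := fun k => d' k.1) hF' ℚ_[p]
  have e2 : ∀ (m H : ℕ), ({F | F ∈ Families n (fun i => d' i + 1) H ∧ Smooth F ∧ LocallySoluble F ∧
        WeakApproximation m F} : Set (Fin r × Fin 3 → MvPolynomial (Fin (n + 1)) ℤ)).ncard =
      ((Pool.Agent.N546.PN.bx n (fun k : Fin r × Fin 3 => d' k.1) H).filter (fun c =>
        (∀ (K : Type) [Field K] [CharZero K], Pool.Agent.N546.PN.SmK (Pool.Agent.N546.PN.ic c K)) ∧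
        ((∃ x z, Pool.Agent.N546.PN.IsP (Pool.Agent.N546.PN.ic c ℝ) x z) ∧
          ∀ (p : ℕ) [Fact p.Prime], ∃ x z,
            Pool.Agent.N546.PN.IsP (Pool.Agent.N546.PN.ic c ℚ_[p]) x z) ∧
        Pool.Agent.N546.PN.WAm m c)).card := by
    intro m H
    refine Eq.trans ?_ ((Pool.Agent.N665.PN.conv_card n (Fin r × Fin 3) (fun k => d' k.1) H
      (fun c => (∀ (K : Type) [Field K] [CharZero K],
        Pool.Agent.N546.PN.SmK (Pool.Agent.N546.PN.ic c K)) ∧
        ((∃ x z, Pool.Agent.N546.PN.IsP (Pool.Agent.N546.PN.ic c ℝ) x z) ∧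
          ∀ (p : ℕ) [Fact p.Prime], ∃ x z,
            Pool.Agent.N546.PN.IsP (Pool.Agent.N546.PN.ic c ℚ_[p]) x z) ∧
        Pool.Agent.N546.PN.WAm m c)).trans (by congr!))
    congr 1
    ext F
    simp only [Set.mem_ofPred_eq, Families]
    refine and_congr_right fun hF => ?_
    have hF' : ∀ k, (F k).IsHomogeneous (d' k.1 + 1) := fun k => (hF k).1
    rw [smooth_iff (e := fun k => d' k.1) hF']
    refine and_congr Iff.rfl ?_
    unfold LocallySoluble
    rw [hasPoint_iff (e := fun k => d' k.1) hF' ℝ, wa_iff (e := fun k => d' k.1) hF' m]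
    refine and_congr (and_congr Iff.rfl (forall_congr' fun p => forall_congr' fun _ => ?_)) Iff.rfl
    exact hasPoint_iff (e := fun k => d' k.1) hF' ℚ_[p]
  have e3 : ∀ H : ℕ, (Families n (fun i : Fin r => d' i + 1) H).ncard =
      (Pool.Agent.N546.PN.bx n (fun k : Fin r × Fin 3 => d' k.1) H).card := by
    intro H
    have h3 := Pool.Agent.N665.PN.conv_card n (Fin r × Fin 3) (fun k => d' k.1) H (fun _ => True)
    rw [Finset.filter_true] at h3
    rw [← h3]
    congr 1
    ext F
    simp [Families]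
  constructor
  · refine ⟨c₀, hc₀, ?_⟩
    filter_upwards [h1] with H h3
    rw [e1 H, e3 H]
    convert h3
  · intro m hm
    have h2 := Pool.Agent.N546.PN.fin_countW (n := n) (r := r) (e := fun k => d' k.1)
      (fun _ _ _ => rfl) hn m hm
    refine h2.congr fun H => ?_
    rw [e1 H, e2 m H]

end Pool.Agent.Results.MP_83e36b_nt.ConicBundlesOverPn
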