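import Mathlib
import Pool.Agent.N718.GC.AllW

/-!
# Weak approximation for 100% of the generalised Châtelet surfaces `y² - a z² = b F_1(x) ⋯ F_m(x)` and of
# their fibre products (helper718)

Let `a_j`, `b_j`, `j < r`, be nonzero integers such that no product of some of the `a_j` is a square, and
let `I_j` be sets of indices `i < m`. Let `F_i`, `i < m`, be binary forms with integral coefficients, of
degrees `e_i + 1`, such that `∑_{i ∈ I_j} (e_i + 1)` is even for all `j`. We consider the variety `X_F`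
fibred over `ℙ¹` in products of `r` conics, given by

  `y_j² - a_j z_j² = b_j ∏_{i ∈ I_j} F_i(x) ≠ 0`, `j < r`.

If some `I_j` has more than one element then, in general, the Brauer group of the smooth proper models
contains the nonconstant classes `(a_j, F_i)` (for forms of even degree, or products of two of odd
degree), and weak approximation fails for those places where they take more than one value.

We order the families `F` by the maximum `H` of the absolute values of all the coefficients. If at least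
one `X_F` has points over the real numbers and all `p`-adic numbers, then a positive proportion of them
has, and 100% of these satisfy weak approximation to precision `1 / m(H)` at the real place and at all
the primes up to `m(H)`, for a function `m` with `m(H) → ∞`, for all local points which are not too close
to the degenerate fibres and to infinity. So for 100% of the `X_F` the Brauer group gives no obstruction
at the small primes: every class takes both values at some large prime.

Proof. Base points with fibres which have rational points, close to the given local base points, are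
found as in `Pool/Agent/Results/MP_d4938b_nt/RandomChateletProducts.lean`: prime values of all the forms,
up to given divisors, by a second moment over all families, where the symbols `(a_j / P_i)` of the
primes are made trivial by the choice of suitable local points at primes `l` modulo which two of the
forms have a common zero. Weak approximation in the fibre is the one for conics with a rational point.
-/

set_option autoImplicit false

namespace Pool.Agent.Results.MP_83e36b_nt.RandomChateletProductsWA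

open Finset Filter Topology

/-- The value at the point `(x, y)` of the binary form `∑ c_j x^(e + 1 - j) y^j` of degree `e + 1`. -/
def value {e : ℕ} (c : Fin (e + 2) → ℤ) {K : Type} [CommRing K] (x y : K) : K :=
  ∑ j : Fin (e + 2), (c j : K) * x ^ (e + 1 - (j : ℕ)) * y ^ (j : ℕ)

/-- The fixed data of the system of equations `y_j² - a_j z_j² = b_j ∏_{i ∈ I_j} F_i(x)`, `j < r`: the
sets `I_j` of indices `i < m` and the integers `a_j` and `b_j`. -/
structure Data (r m : ℕ) where
  /-- the sets of indices -/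
  I : Fin r → Finset (Fin m)
  /-- the coefficients on the left -/
  a : Fin r → ℤ
  /-- the constant factors on the right -/
  b : Fin r → ℤ

variable {r m : ℕ}

/-- No product of some of the `a_j` (of at least one of them) is a square, the `b_j` are not zero, and
the right hand sides have even degree, if the form `F_i` has the degree `e i + 1`. -/
structure Data.Admissible (E : Data r m) (e : Fin m → ℕ) : Prop where
  independent : ∀ T : Finset (Fin r), T.Nonempty → ¬ IsSquare (∏ j ∈ T, E.a j)
  nonzero : ∀ j, E.b j ≠ 0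
  even : ∀ j, Even (∑ i ∈ E.I j, (e i + 1))

/-- There is a point over the field `K` over the base point `(x, y)`, and no form `F_i` vanishes there.
The form `F_i` has the coefficients `c i`. -/
def HasPoint (E : Data r m) {e : Fin m → ℕ} (c : (i : Fin m) → Fin (e i + 2) → ℤ) {K : Type} [Field K]
    (x y : K) : Prop :=
  (∀ i, value (c i) x y ≠ 0) ∧
    ∀ j, ∃ u v : K, u ^ 2 - (E.a j : K) * v ^ 2 = (E.b j : K) * ∏ i ∈ E.I j, value (c i) x y

/-- There are a real point over a base point `(1, z)` and a `p`-adic point for every prime number `p`. -/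
def LocallySoluble (E : Data r m) {e : Fin m → ℕ} (c : (i : Fin m) → Fin (e i + 2) → ℤ) : Prop :=
  (∃ z : ℝ, HasPoint E c (1 : ℝ) z) ∧ ∀ p : Nat.Primes, ∃ x y : ℚ_[(p : ℕ)], HasPoint E c x y

/-- `(t, y, z)` is a point over the field `K` of the affine open subvariety
`y_j² - a_j z_j² = b_j ∏_{i ∈ I_j} F_i(1, t)`, `j < r`, where no `F_i(1, t)` vanishes. -/
def IsPoint (E : Data r m) {e : Fin m → ℕ} (c : (i : Fin m) → Fin (e i + 2) → ℤ) {K : Type} [Field K]
    (t : K) (y z : Fin r → K) : Prop :=
  (∀ i, value (c i) 1 t ≠ 0) ∧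
    ∀ j, y j ^ 2 - (E.a j : K) * z j ^ 2 = (E.b j : K) * ∏ i ∈ E.I j, value (c i) 1 t

/-- The pairs `(y, z)` and `(y', z')` differ by at most `δ` times the maximum of the absolute values of
`y` and `z`. -/
def Close {K : Type} [NormedField K] (δ : ℝ) (y z y' z' : K) : Prop :=
  ‖y - y'‖ ≤ δ * max ‖y‖ ‖z‖ ∧ ‖z - z'‖ ≤ δ * max ‖y‖ ‖z‖

/-- Weak approximation to precision `1 / m₀` at the real place and at the primes up to `m₀`, for families
of forms of height at most `H`: let `(T p, Y p, Z p)` be `p`-adic points for all `p`, and `(TR, YR, ZR)` a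
real point, such that for the primes `p ≤ m₀` the absolute value of `T p` is at most `m₀` and those of
the `F_i(1, T p)` are at least `1 / m₀`, and such that `|TR| ≤ m₀` and the `|F_i(1, TR)|` are at least
`H / m₀`. Then there is a rational point `(t, y, z)` close to `(TR, YR, ZR)` and to the `(T p, Y p, Z p)`,
`p ≤ m₀`. -/
def WeakApproximation (E : Data r m) {e : Fin m → ℕ} (H m₀ : ℕ)
    (c : (i : Fin m) → Fin (e i + 2) → ℤ) : Prop :=
  ∀ (T : (p : Nat.Primes) → ℚ_[(p : ℕ)]) (Y Z : (p : Nat.Primes) → Fin r → ℚ_[(p : ℕ)])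
    (TR : ℝ) (YR ZR : Fin r → ℝ), (∀ p, IsPoint E c (T p) (Y p) (Z p)) → IsPoint E c TR YR ZR →
    (∀ p : Nat.Primes, (p : ℕ) ≤ m₀ → ‖T p‖ ≤ m₀ ∧ ∀ i, 1 / (m₀ : ℝ) ≤ ‖value (c i) 1 (T p)‖) →
    (|TR| ≤ m₀ ∧ ∀ i, (H : ℝ) / (m₀ : ℝ) ≤ |value (c i) 1 TR|) →
    ∃ (t : ℚ) (y z : Fin r → ℚ), IsPoint E c t y z ∧
      (∀ p : Nat.Primes, (p : ℕ) ≤ m₀ → ‖T p - (t : ℚ_[(p : ℕ)])‖ ≤ 1 / (m₀ : ℝ) ∧
        ∀ j, Close (1 / (m₀ : ℝ)) (Y p j) (Z p j) (y j : ℚ_[(p : ℕ)]) (z j : ℚ_[(p : ℕ)])) ∧
      |TR - (t : ℝ)| ≤ 1 / (m₀ : ℝ) ∧ ∀ j, Close (1 / (m₀ : ℝ)) (YR j) (ZR j) (y j : ℝ) (z j : ℝ)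

/-- The families of forms whose coefficients are integers of absolute value at most `H`. -/
noncomputable def families (e : Fin m → ℕ) (H : ℕ) : Finset ((i : Fin m) → Fin (e i + 2) → ℤ) :=
  Fintype.piFinset fun _ => Fintype.piFinset fun _ => Icc (-(H : ℤ)) H

lemma card_families (e : Fin m → ℕ) (H : ℕ) :
    ((families e H).card : ℝ) = ((2 * H + 1 : ℕ) : ℝ) ^ Pool.Agent.N718.DC.ncI e := by
  have h1 : ((Icc (-(H : ℤ)) H).card) = 2 * H + 1 := by
    rw [Int.card_Icc]
    omega
  unfold families Pool.Agent.N718.DC.ncI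
  rw [Fintype.card_piFinset]
  simp only [Fintype.card_piFinset, h1, prod_const, card_univ, Fintype.card_fin]
  rw [← Finset.prod_pow_eq_pow_sum]
  push_cast
  rfl

/-- Diagonalisation: if `Q H m` holds for every `m ≥ 1` and all large `H`, then there is a function `m`
tending to infinity such that `Q H (m H)` holds for all large `H`. -/
lemma diagonal (Q : ℕ → ℕ → Prop) (hQ : ∀ m : ℕ, 1 ≤ m → ∃ H₀ : ℕ, ∀ H : ℕ, H₀ ≤ H → Q H m) :
    ∃ m : ℕ → ℕ, Tendsto m atTop atTop ∧ ∀ᶠ H : ℕ in atTop, Q H (m H) := by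
  choose! H₀ hH₀ using hQ
  refine ⟨fun H => Nat.findGreatest (fun m => ∑ k ∈ Icc 1 m, H₀ k ≤ H) H, ?_, ?_⟩
  · refine tendsto_atTop.2 fun M => eventually_atTop.2 ⟨max M (∑ k ∈ Icc 1 M, H₀ k), fun H hH => ?_⟩
    exact Nat.le_findGreatest ((le_max_left _ _).trans hH) ((le_max_right _ _).trans hH)
  · refine eventually_atTop.2 ⟨max 1 (∑ k ∈ Icc 1 1, H₀ k), fun H hH => ?_⟩
    have hP1 : ∑ k ∈ Icc 1 1, H₀ k ≤ H := (le_max_right _ _).trans hH
    have h1 : 1 ≤ Nat.findGreatest (fun m => ∑ k ∈ Icc 1 m, H₀ k ≤ H) H :=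
      Nat.le_findGreatest (P := fun m => ∑ k ∈ Icc 1 m, H₀ k ≤ H) ((le_max_left _ _).trans hH) hP1
    have h2 : ∑ k ∈ Icc 1 (Nat.findGreatest (fun m => ∑ k ∈ Icc 1 m, H₀ k ≤ H) H), H₀ k ≤ H :=
      Nat.findGreatest_spec (P := fun m => ∑ k ∈ Icc 1 m, H₀ k ≤ H)
        ((le_max_left _ _).trans hH) hP1
    exact hH₀ _ h1 H ((Finset.single_le_sum (f := H₀) (fun _ _ => Nat.zero_le _)
      (Finset.mem_Icc.2 ⟨h1, le_rfl⟩)).trans h2)

/-- The same data in the notation of the library. -/
def toDat (E : Data r m) : Pool.Agent.N718.GC.Dat r m := ⟨E.I, E.a, E.b⟩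

lemma toDat_ok {E : Data r m} {e : Fin m → ℕ} (h : E.Admissible e) : (toDat E).Ok e :=
  ⟨h.independent, h.nonzero, h.even⟩

open Classical in
/-- **Weak approximation for 100% of the generalised Châtelet surfaces and their fibre products.** -/
theorem result (r m : ℕ) (hm : 1 ≤ m) (e : Fin m → ℕ) (E : Data r m) (hE : E.Admissible e)
    (hne : ∃ c : (i : Fin m) → Fin (e i + 2) → ℤ, LocallySoluble E c) :
    (∃ c₀ : ℝ, 0 < c₀ ∧ ∀ᶠ H : ℕ in atTop,
      c₀ * (families e H).card ≤ ({c ∈ families e H | LocallySoluble E c}.card : ℝ)) ∧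
    ∃ M : ℕ → ℕ, Tendsto M atTop atTop ∧ Tendsto (fun H : ℕ =>
      ({c ∈ families e H | LocallySoluble E c ∧ WeakApproximation E H (M H) c}.card : ℝ) /
        ({c ∈ families e H | LocallySoluble E c}.card : ℝ)) atTop (𝓝 1) := by
  have hloc : ∀ c : (i : Fin m) → Fin (e i + 2) → ℤ, LocallySoluble E c ↔
      Pool.Agent.N718.GC.LocG (toDat E) Set.univ c := by
    intro c
    constructor
    · rintro ⟨⟨z, hz⟩, h⟩
      exact ⟨⟨z, trivial, hz⟩, h⟩
    · rintro ⟨⟨z, -, hz⟩, h⟩
      exact ⟨⟨z, hz⟩, h⟩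
  obtain ⟨c₁, hc₁⟩ := hne
  obtain ⟨c₀, hc₀, H₀, hpos⟩ := Pool.Agent.N718.GC.mainbg r m (toDat E) e (toDat_ok hE) Set.univ
    ⟨c₁, (hloc c₁).1 hc₁⟩
  have hA := Pool.Agent.N718.GC.mainwg r m (toDat E) e hm (toDat_ok hE)
  have hpos' : ∀ H : ℕ, H₀ ≤ H →
      c₀ * (families e H).card ≤ ({c ∈ families e H | LocallySoluble E c}.card : ℝ) := by
    intro H hH
    rw [card_families]
    refine (hpos H hH).trans ?_
    rw [Nat.cast_le]
    apply Finset.card_le_card
    apply Finset.monotone_filter_right
    intro c _ hc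
    exact (hloc c).2 hc
  refine ⟨⟨c₀, hc₀, eventually_atTop.2 ⟨H₀, hpos'⟩⟩, ?_⟩
  obtain ⟨M, hM, hQ⟩ := diagonal (fun H m₀ =>
    (({c ∈ families e H | ¬ WeakApproximation E H m₀ c}.card : ℝ)) ≤
      1 / (m₀ : ℝ) * (families e H).card) (fun m₀ hm₀ => by
        obtain ⟨H₁, hH₁⟩ := hA m₀ (1 / (m₀ : ℝ)) hm₀ (by positivity)
        refine ⟨H₁, fun H hH => ?_⟩
        rw [card_families]
        exact hH₁ H hH)
  refine ⟨M, hM, ?_⟩
  rw [Metric.tendsto_atTop]
  intro ε hε
  obtain ⟨K, hK⟩ := exists_nat_gt (1 / (c₀ * (ε / 2)))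
  obtain ⟨H₁, hH₁⟩ := eventually_atTop.1 (hQ.and (hM.eventually_ge_atTop (K + 1)))
  refine ⟨max H₀ H₁, fun H hH => ?_⟩
  have h1 := hpos' H ((le_max_left _ _).trans hH)
  obtain ⟨h2', h3'⟩ := hH₁ H ((le_max_right _ _).trans hH)
  have hmH : 1 / ((M H : ℕ) : ℝ) ≤ c₀ * (ε / 2) := by
    have hmM : ((K : ℕ) : ℝ) ≤ ((M H : ℕ) : ℝ) := by
      exact_mod_cast (Nat.le_succ K).trans h3'
    have hmpos : (0 : ℝ) < ((M H : ℕ) : ℝ) := by
      have : 0 < M H := by omega
      exact_mod_cast this
    rw [div_le_iff₀ hmpos]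
    have h4 := (div_lt_iff₀ (by positivity : 0 < c₀ * (ε / 2))).1 hK
    nlinarith [mul_le_mul_of_nonneg_left hmM (by positivity : 0 ≤ c₀ * (ε / 2))]
  have h2 : ({c ∈ families e H | LocallySoluble E c ∧ ¬ WeakApproximation E H (M H) c}.card : ℝ) ≤
      c₀ * (ε / 2) * (families e H).card := by
    have h5 : ({c ∈ families e H | LocallySoluble E c ∧ ¬ WeakApproximation E H (M H) c}.card : ℝ) ≤
        ({c ∈ families e H | ¬ WeakApproximation E H (M H) c}.card : ℝ) := by
      rw [Nat.cast_le]
      apply Finset.card_le_card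
      apply Finset.monotone_filter_right
      intro c _ hc
      exact hc.2
    refine h5.trans (h2'.trans ?_)
    exact mul_le_mul_of_nonneg_right hmH (Nat.cast_nonneg _)
  have hF : (0 : ℝ) < (families e H).card := by
    rw [card_families]
    positivity
  have hL : (0 : ℝ) < ({c ∈ families e H | LocallySoluble E c}.card : ℝ) :=
    lt_of_lt_of_le (by positivity) h1
  have hsplit : ({c ∈ families e H | LocallySoluble E c}.card : ℝ) =
      ({c ∈ families e H | LocallySoluble E c ∧ WeakApproximation E H (M H) c}.card : ℝ) +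
        ({c ∈ families e H | LocallySoluble E c ∧ ¬ WeakApproximation E H (M H) c}.card : ℝ) := by
    rw [← Nat.cast_add, Nat.cast_inj, ← Finset.filter_filter, ← Finset.filter_filter]
    exact (Finset.card_filter_add_card_filter_not (fun c => WeakApproximation E H (M H) c)).symm
  rw [Real.dist_eq, abs_sub_comm, abs_of_nonneg]
  · rw [sub_lt_comm, lt_div_iff₀ hL]
    have h3 : c₀ * (ε / 2) * (families e H).card ≤
        (ε / 2) * ({c ∈ families e H | LocallySoluble E c}.card : ℝ) := by
      nlinarith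
    nlinarith
  · rw [sub_nonneg, div_le_one hL, hsplit]
    have : (0 : ℝ) ≤ ({c ∈ families e H | LocallySoluble E c ∧
        ¬ WeakApproximation E H (M H) c}.card : ℝ) := Nat.cast_nonneg _
    linarith

end Pool.Agent.Results.MP_83e36b_nt.RandomChateletProductsWA
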