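import Mathlib
import Pool.Agent.N718.DC.AllW

/-!
# Weak approximation for 100% of the diagonal conic bundles over the projective line, and for their
# fibre products (helper718)

Let `r ≥ 1` and let `F_{i,l}`, `i < r`, `l < 3`, be binary forms with integral coefficients, of degree
`e_i + 1` for all `l`. Let `X_F ⊆ ℙ¹ × (ℙ²)^r` be the fibre product over `ℙ¹` of the `r` diagonal conic
bundles `F_{i,0}(x) z₀² + F_{i,1}(x) z₁² = F_{i,2}(x) z₂²`: a geometrically rational surface for `r = 1`,
and a rationally connected variety of dimension `r + 1` in general, with `3 ∑ (e_i + 1)` degenerate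
geometric fibres. Weak approximation can fail for these varieties.

We order the families `F` by the maximum `H` of the absolute values of all their coefficients. A positive
proportion of the `X_F` has points over the real numbers and over all the `p`-adic numbers, and 100% of
these satisfy weak approximation to precision `1 / m(H)` at the real place and at all the primes up to
`m(H)`, for a function `m` with `m(H) → ∞`.

Proof. Outside of a set of families of proportion `ε`, in which two of the forms almost have a common zero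
or one of them almost has a double zero at a given place `v`, local points over `v` can be moved to local
points over base points at which the forms have bounded `v`-adic valuations; then the base point of a
rational point close to the given local ones is found as in
`Pool/Agent/Results/MP_12adaf_nt/RandomDiagonalConicBundles.lean` (prime values of all the forms, up to
given divisors, with given Legendre symbols, by a second moment over all families), and weak approximation
for conics with a rational point gives the point in the fibre.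
-/

set_option autoImplicit false

namespace Pool.Agent.Results.MP_83e36b_nt.RandomDiagonalConicBundlesWA

open Finset Filter Topology

/-- The value at the point `(x, y)` of the binary form `∑ c_j x^(e + 1 - j) y^j` of degree `e + 1`. -/
def value {e : ℕ} (c : Fin (e + 2) → ℤ) {K : Type} [CommRing K] (x y : K) : K :=
  ∑ j : Fin (e + 2), (c j : K) * x ^ (e + 1 - (j : ℕ)) * y ^ (j : ℕ)

/-- The vector `z` is a nonzero solution over the field `K` of `A z₀² + B z₁² = C z₂²`. -/
def OnConic {K : Type} [Field K] (A B C : K) (z : Fin 3 → K) : Prop :=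
  z ≠ 0 ∧ A * z 0 ^ 2 + B * z 1 ^ 2 = C * z 2 ^ 2

variable {r : ℕ} {e : Fin r × Fin 3 → ℕ}

/-- The homogeneous coordinates `x` and `z i`, `i < r`, define a point over the field `K` of the fibre
product of the conic bundles `F_{i,0}(x) z₀² + F_{i,1}(x) z₁² = F_{i,2}(x) z₂²`, given by the families
`c (i, l)` of the coefficients of the forms `F_{i,l}`, and this point does not lie on a degenerate
fibre. -/
def IsPoint (c : (k : Fin r × Fin 3) → Fin (e k + 2) → ℤ) {K : Type} [Field K] (x : Fin 2 → K)
    (z : Fin r → Fin 3 → K) : Prop :=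
  (∀ k, value (c k) (x 0) (x 1) ≠ 0) ∧
    ∀ i, OnConic (value (c (i, 0)) (x 0) (x 1)) (value (c (i, 1)) (x 0) (x 1))
      (value (c (i, 2)) (x 0) (x 1)) (z i)

/-- There are a real point and a `p`-adic point for every prime number `p`. -/
def LocallySoluble (c : (k : Fin r × Fin 3) → Fin (e k + 2) → ℤ) : Prop :=
  (∃ (x : Fin 2 → ℝ) (z : Fin r → Fin 3 → ℝ), IsPoint c x z) ∧
    ∀ p : Nat.Primes, ∃ (x : Fin 2 → ℚ_[(p : ℕ)]) (z : Fin r → Fin 3 → ℚ_[(p : ℕ)]), IsPoint c x z

/-- After multiplication of `b` by a nonzero number of `K` the homogeneous coordinates `a` and `b`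
differ by at most `δ` times the largest absolute value of the coordinates `a`. -/
def Near {K : Type} [NormedField K] {n : ℕ} (δ : ℝ) (a b : Fin n → K) : Prop :=
  ∃ l : K, l ≠ 0 ∧ ∀ j, ‖a j - l * b j‖ ≤ ‖a‖ * δ

/-- Weak approximation to precision `1 / m` at the real place and at the primes up to `m`: for all
families `(X p, Z p)` of `p`-adic points and all real points `(XR, ZR)` there is a rational point
`(x, z)` which is near to `(XR, ZR)` and to the `(X p, Z p)`, `p ≤ m`. -/
def WeakApproximation (m : ℕ) (c : (k : Fin r × Fin 3) → Fin (e k + 2) → ℤ) : Prop :=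
  ∀ (X : (p : Nat.Primes) → Fin 2 → ℚ_[(p : ℕ)]) (Z : (p : Nat.Primes) → Fin r → Fin 3 → ℚ_[(p : ℕ)])
    (XR : Fin 2 → ℝ) (ZR : Fin r → Fin 3 → ℝ), (∀ p, IsPoint c (X p) (Z p)) → IsPoint c XR ZR →
    ∃ (x : Fin 2 → ℚ) (z : Fin r → Fin 3 → ℚ), IsPoint c x z ∧
      (∀ p : Nat.Primes, (p : ℕ) ≤ m → Near (1 / (m : ℝ)) (X p) (fun j => (x j : ℚ_[(p : ℕ)])) ∧
        ∀ i, Near (1 / (m : ℝ)) (Z p i) (fun j => (z i j : ℚ_[(p : ℕ)]))) ∧
      Near (1 / (m : ℝ)) XR (fun j => (x j : ℝ)) ∧
        ∀ i, Near (1 / (m : ℝ)) (ZR i) (fun j => (z i j : ℝ))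

/-- The families of forms whose coefficients are integers of absolute value at most `H`. -/
noncomputable def families (e : Fin r × Fin 3 → ℕ) (H : ℕ) :
    Finset ((k : Fin r × Fin 3) → Fin (e k + 2) → ℤ) :=
  Fintype.piFinset fun _ => Fintype.piFinset fun _ => Icc (-(H : ℤ)) H

lemma card_families (e : Fin r × Fin 3 → ℕ) (H : ℕ) :
    ((families e H).card : ℝ) = ((2 * H + 1 : ℕ) : ℝ) ^ Pool.Agent.N718.DC.ncI e := by
  have h1 : ((Icc (-(H : ℤ)) H).card) = 2 * H + 1 := by
    rw [Int.card_Icc]
    omega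
  unfold families Pool.Agent.N718.DC.ncI
  rw [Fintype.card_piFinset]
  simp only [Fintype.card_piFinset, h1, prod_const, card_univ, Fintype.card_fin]
  rw [← Finset.prod_pow_eq_pow_sum]
  push_cast
  rfl

/-- Diagonalisation: if `Q H m` holds for every `m ≥ 1` and all large `H`, then there is a function `m`
tending to infinity such that `Q H (m H)` holds for all large `H`. -/
lemma diagonal (Q : ℕ → ℕ → Prop) (hQ : ∀ m : ℕ, 1 ≤ m → ∃ H₀ : ℕ, ∀ H : ℕ, H₀ ≤ H → Q H m) :
    ∃ m : ℕ → ℕ, Tendsto m atTop atTop ∧ ∀ᶠ H : ℕ in atTop, Q H (m H) := by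
  choose! H₀ hH₀ using hQ
  refine ⟨fun H => Nat.findGreatest (fun m => ∑ k ∈ Icc 1 m, H₀ k ≤ H) H, ?_, ?_⟩
  · refine tendsto_atTop.2 fun M => eventually_atTop.2 ⟨max M (∑ k ∈ Icc 1 M, H₀ k), fun H hH => ?_⟩
    exact Nat.le_findGreatest ((le_max_left _ _).trans hH) ((le_max_right _ _).trans hH)
  · refine eventually_atTop.2 ⟨max 1 (∑ k ∈ Icc 1 1, H₀ k), fun H hH => ?_⟩
    have hP1 : ∑ k ∈ Icc 1 1, H₀ k ≤ H := (le_max_right _ _).trans hH
    have h1 : 1 ≤ Nat.findGreatest (fun m => ∑ k ∈ Icc 1 m, H₀ k ≤ H) H :=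
      Nat.le_findGreatest (P := fun m => ∑ k ∈ Icc 1 m, H₀ k ≤ H) ((le_max_left _ _).trans hH) hP1
    have h2 : ∑ k ∈ Icc 1 (Nat.findGreatest (fun m => ∑ k ∈ Icc 1 m, H₀ k ≤ H) H), H₀ k ≤ H :=
      Nat.findGreatest_spec (P := fun m => ∑ k ∈ Icc 1 m, H₀ k ≤ H)
        ((le_max_left _ _).trans hH) hP1
    exact hH₀ _ h1 H ((Finset.single_le_sum (f := H₀) (fun _ _ => Nat.zero_le _)
      (Finset.mem_Icc.2 ⟨h1, le_rfl⟩)).trans h2)

open Classical in
/-- **Weak approximation for 100% of the fibre products of diagonal conic bundles.** -/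
theorem result (r : ℕ) (e : Fin r × Fin 3 → ℕ) (hr : 1 ≤ r) (he : ∀ i l l', e (i, l) = e (i, l')) :
    (∃ c₀ : ℝ, 0 < c₀ ∧ ∀ᶠ H : ℕ in atTop,
      c₀ * (families e H).card ≤ ({c ∈ families e H | LocallySoluble c}.card : ℝ)) ∧
    ∃ m : ℕ → ℕ, Tendsto m atTop atTop ∧ Tendsto (fun H : ℕ =>
      ({c ∈ families e H | LocallySoluble c ∧ WeakApproximation (m H) c}.card : ℝ) /
        ({c ∈ families e H | LocallySoluble c}.card : ℝ)) atTop (𝓝 1) := by
  obtain ⟨c₀, hc₀, H₀, hpos⟩ := Pool.Agent.N718.DC.mainb r e Set.univ isOpen_univ Set.univ_nonempty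
  have hA := Pool.Agent.N718.DC.mainw r e hr he
  have hpos' : ∀ H : ℕ, H₀ ≤ H →
      c₀ * (families e H).card ≤ ({c ∈ families e H | LocallySoluble c}.card : ℝ) := by
    intro H hH
    rw [card_families]
    refine (hpos H hH).trans ?_
    rw [Nat.cast_le]
    apply Finset.card_le_card
    apply Finset.monotone_filter_right
    intro c _ hc
    have key : ∀ (K : Type) [Field K] (x y : K), Pool.Agent.N718.DC.PS c x y →
        ∃ (x : Fin 2 → K) (z : Fin r → Fin 3 → K), IsPoint c x z := by
      intro K _ x y hK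
      have hsol := hK.2
      choose u v w hne heq using hsol
      refine ⟨![x, y], fun i => ![u i, v i, w i], ?_, ?_⟩
      · intro k
        exact hK.1 k
      · intro i
        refine ⟨fun h => ?_, ?_⟩
        · have h0 := congrFun h 0
          have h1 := congrFun h 1
          have h2 := congrFun h 2
          simp at h0 h1 h2
          rcases hne i with h | h | h
          · exact h h0
          · exact h h1
          · exact h h2
        · exact heq i
    obtain ⟨⟨t, -, ht⟩, hp⟩ := hc
    refine ⟨key ℝ 1 t ht, fun p => ?_⟩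
    obtain ⟨x, y, hxy⟩ := hp p
    exact key _ x y hxy
  refine ⟨⟨c₀, hc₀, eventually_atTop.2 ⟨H₀, hpos'⟩⟩, ?_⟩
  obtain ⟨m, hm, hQ⟩ := diagonal (fun H m =>
    (({c ∈ families e H | ¬ WeakApproximation m c}.card : ℝ)) ≤
      1 / (m : ℝ) * (families e H).card) (fun m hm => by
        obtain ⟨H₁, hH₁⟩ := hA m (1 / (m : ℝ)) hm (by positivity)
        refine ⟨H₁, fun H hH => ?_⟩
        rw [card_families]
        exact hH₁ H hH)
  refine ⟨m, hm, ?_⟩
  rw [Metric.tendsto_atTop]
  intro ε hε
  obtain ⟨M, hM⟩ := exists_nat_gt (1 / (c₀ * (ε / 2)))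
  obtain ⟨H₁, hH₁⟩ := eventually_atTop.1 (hQ.and (hm.eventually_ge_atTop (M + 1)))
  refine ⟨max H₀ H₁, fun H hH => ?_⟩
  have h1 := hpos' H ((le_max_left _ _).trans hH)
  obtain ⟨h2', h3'⟩ := hH₁ H ((le_max_right _ _).trans hH)
  have hmH : 1 / ((m H : ℕ) : ℝ) ≤ c₀ * (ε / 2) := by
    have hmM : ((M : ℕ) : ℝ) ≤ ((m H : ℕ) : ℝ) := by
      exact_mod_cast (Nat.le_succ M).trans h3'
    have hmpos : (0 : ℝ) < ((m H : ℕ) : ℝ) := by
      have : 0 < m H := by omega
      exact_mod_cast this
    rw [div_le_iff₀ hmpos]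
    have h4 := (div_lt_iff₀ (by positivity : 0 < c₀ * (ε / 2))).1 hM
    nlinarith [mul_le_mul_of_nonneg_left hmM (by positivity : 0 ≤ c₀ * (ε / 2))]
  have h2 : ({c ∈ families e H | LocallySoluble c ∧ ¬ WeakApproximation (m H) c}.card : ℝ) ≤
      c₀ * (ε / 2) * (families e H).card := by
    have h5 : ({c ∈ families e H | LocallySoluble c ∧ ¬ WeakApproximation (m H) c}.card : ℝ) ≤
        ({c ∈ families e H | ¬ WeakApproximation (m H) c}.card : ℝ) := by
      rw [Nat.cast_le]
      apply Finset.card_le_card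
      apply Finset.monotone_filter_right
      intro c _ hc
      exact hc.2
    refine h5.trans (h2'.trans ?_)
    exact mul_le_mul_of_nonneg_right hmH (Nat.cast_nonneg _)
  have hF : (0 : ℝ) < (families e H).card := by
    rw [card_families]
    positivity
  have hL : (0 : ℝ) < ({c ∈ families e H | LocallySoluble c}.card : ℝ) :=
    lt_of_lt_of_le (by positivity) h1
  have hsplit : ({c ∈ families e H | LocallySoluble c}.card : ℝ) =
      ({c ∈ families e H | LocallySoluble c ∧ WeakApproximation (m H) c}.card : ℝ) +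
        ({c ∈ families e H | LocallySoluble c ∧ ¬ WeakApproximation (m H) c}.card : ℝ) := by
    rw [← Nat.cast_add, Nat.cast_inj, ← Finset.filter_filter, ← Finset.filter_filter]
    exact (Finset.card_filter_add_card_filter_not (fun c => WeakApproximation (m H) c)).symm
  rw [Real.dist_eq, abs_sub_comm, abs_of_nonneg]
  · rw [sub_lt_comm, lt_div_iff₀ hL]
    have h3 : c₀ * (ε / 2) * (families e H).card ≤
        (ε / 2) * ({c ∈ families e H | LocallySoluble c}.card : ℝ) := by
      nlinarith
    nlinarith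
  · rw [sub_nonneg, div_le_one hL, hsplit]
    have : (0 : ℝ) ≤ ({c ∈ families e H | LocallySoluble c ∧ ¬ WeakApproximation (m H) c}.card : ℝ) :=
      Nat.cast_nonneg _
    linarith

end Pool.Agent.Results.MP_83e36b_nt.RandomDiagonalConicBundlesWA
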